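import Pool.Agent.W402.HI.Defs2

set_option autoImplicit false

open Filter Topology MeasureTheory Metric

namespace Pool.Agent.W287.HI.H1

open Pool.Agent.W402.HI

theorem main (hA : P_A4) (hB : P_B1) (hC : P_C1) (hC' : P_C2) : P_H1 := by
  intro X _ _ _ T γ K hγ a hspec p hp q hq hap hqp hgr
  obtain ⟨A, hgrA⟩ := hgr
  obtain ⟨c, hc, Z, dir, hgl⟩ := hB γ K hγ (max a q.re) p.re (max_lt hap hqp)
  have hac : a < c := (le_max_left _ _).trans_lt hc.1
  have hqc : q.re < c := (le_max_right _ _).trans_lt hc.1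
  have hcp : c < p.re := hc.2
  obtain ⟨E, hE⟩ : ∃ E : Set ℂ, E = spectrum ℂ T ∪ γ '' Set.Icc 0 1 := ⟨_, rfl⟩
  have hcomp : IsCompact E := by
    rw [hE]
    exact (spectrum.isCompact T).union (isCompact_Icc.image hγ.continuous)
  have hEa : ∀ z ∈ E, a < z.re → z ∈ γ '' Set.Icc 0 1 := by
    intro z hz ha
    rw [hE] at hz
    rcases hz with hz | hz
    · exact hspec z hz ha
    · exact hz
  have hΓE : ∀ z ∈ γ '' Set.Icc 0 1, z ∈ E := fun z hz => by rw [hE]; exact Or.inr hz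
  have hgl' : GoodLine E c Z dir := by
    refine ⟨fun z => ?_, fun w hw => ?_⟩
    · rw [hgl.1 z]
      constructor
      · rintro ⟨h1, h2⟩
        exact ⟨hΓE z h1, h2⟩
      · rintro ⟨h1, h2⟩
        exact ⟨hEa z h1 (by rw [h2]; exact hac), h2⟩
    · obtain ⟨h1, h2, h3⟩ := hgl.2 w hw
      refine ⟨h1, h2, ?_⟩
      have hwc : w.re = c := ((hgl.1 w).1 hw).2
      intro θ hθ
      obtain ⟨r, hr, hz⟩ := h3 θ hθ
      refine ⟨min r (c - a), lt_min hr (by linarith), ?_⟩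
      intro z hzE hzr
      have h4 : |(z - w).re| ≤ ‖z - w‖ := Complex.abs_re_le_norm _
      rw [Complex.sub_re, hwc] at h4
      have h5 := (abs_le.1 h4).1
      have h6 := hzr.trans_le (min_le_right _ _)
      exact hz z (hEa z hzE (by linarith)) (hzr.trans_le (min_le_left _ _))
  have hresset : ∀ z, z ∉ E → z ∈ resolventSet ℂ T := by
    intro z hz
    by_contra h
    apply hz
    rw [hE]
    exact Or.inl h
  have hN0 : ∀ z : ℂ, 0 ≤ ‖resolvent T z‖ := fun z => norm_nonneg _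
  have hNc : ContinuousOn (fun z : ℂ => ‖resolvent T z‖) Eᶜ := by
    intro z hz
    have h1 := (spectrum.hasDerivAt_resolvent_const_left (hresset z hz)).continuousAt
    exact (h1.norm).continuousWithinAt
  have hcg : ∀ w ∈ Z, ConeGrowth (fun z : ℂ => ‖resolvent T z‖) w (dir w) A := by
    intro w hw
    have hw1 := (hgl.1 w).1 hw
    obtain ⟨hd1, -, htan⟩ := hgl.2 w hw
    exact hgrA w hw1.1 (by rw [hw1.2]; exact hac) (dir w) hd1 htan
  obtain ⟨F₁, hF1, hs1, hD1, ⟨M1, hM1⟩, hp1⟩ := hC E hcomp c Z dir hgl' _ A hN0 hNc hcg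
  obtain ⟨F₂, hF2, hs2, hD2, ⟨M2, hM2⟩, hp2⟩ := hC' E hcomp c Z dir hgl' _ A hN0 hNc hcg
  have hsE : ∀ z ∈ spectrum ℂ T, z ∈ E := fun z hz => by rw [hE]; exact Or.inl hz
  refine hA X T c (Z : Set ℂ) Z.countable_toSet F₁ F₂ hF1 hF2 hs1 hs2 ?_ ?_ ?_
    ⟨M1, hM1⟩ ⟨M2, hM2⟩ ?_ ?_
  · intro z hz
    exact ((hgl.1 z).1 hz).2
  · intro z hz
    exact hresset z (hD1 z hz)
  · intro z hz
    exact hresset z (hD2 z hz)
  · have h2 := hp1 q (hsE q hq) hqc
    exact ⟨q, hq, h2.1, h2.2⟩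
  · have h2 := hp2 p (hsE p hp) hcp
    exact ⟨p, hp, h2.1, h2.2⟩

end Pool.Agent.W287.HI.H1
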