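import Pool.Agent.W402.HI.Defs2

set_option autoImplicit false

open Filter Topology MeasureTheory Metric

namespace Pool.Agent.W287.HI.H2

open Pool.Agent.W402.HI

theorem aux_bounds (s η : ℂ) : |(s * (1 + η)).im - s.im| ≤ ‖η‖ * (|s.re| + |s.im|) ∧
    |(s * (1 + η)).re - s.re| ≤ ‖η‖ * (|s.re| + |s.im|) := by
  have h1 : s * (1 + η) - s = s * η := by ring
  have h2 : ‖s * η‖ ≤ ‖η‖ * (|s.re| + |s.im|) := by
    rw [norm_mul, mul_comm]
    exact mul_le_mul_of_nonneg_left (Complex.norm_le_abs_re_add_abs_im s) (norm_nonneg _)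
  constructor
  · rw [← Complex.sub_im, h1]
    exact (Complex.abs_im_le_norm _).trans h2
  · rw [← Complex.sub_re, h1]
    exact (Complex.abs_re_le_norm _).trans h2

theorem pert1 (s η : ℂ) (θ : ℝ) (h0 : 0 < θ) (h1 : θ ≤ 1) (hη : ‖η‖ ≤ θ / 10)
    (h : |(s * (1 + η)).im| ≤ θ * |(s * (1 + η)).re|) : |s.im| ≤ 2 * θ * |s.re| := by
  obtain ⟨h2, h3⟩ := aux_bounds s η
  have hη0 := norm_nonneg η
  have hr := abs_nonneg s.re
  have hi := abs_nonneg s.im
  have h4 : |s.im| ≤ |(s * (1 + η)).im| + ‖η‖ * (|s.re| + |s.im|) := by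
    have := abs_sub_abs_le_abs_sub s.im (s * (1 + η)).im
    rw [abs_sub_comm] at this
    linarith
  have h5 : |(s * (1 + η)).re| ≤ |s.re| + ‖η‖ * (|s.re| + |s.im|) := by
    have := abs_sub_abs_le_abs_sub (s * (1 + η)).re s.re
    linarith
  have h6 : ‖η‖ * (|s.re| + |s.im|) ≤ θ / 10 * (|s.re| + |s.im|) :=
    mul_le_mul_of_nonneg_right hη (by positivity)
  have h7 : θ * |(s * (1 + η)).re| ≤ θ * (|s.re| + θ / 10 * (|s.re| + |s.im|)) :=
    mul_le_mul_of_nonneg_left (by linarith) h0.le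
  have h8 : θ * (θ / 10 * (|s.re| + |s.im|)) ≤ θ / 10 * (|s.re| + |s.im|) := by
    have : 0 ≤ θ / 10 * (|s.re| + |s.im|) := by positivity
    nlinarith
  have h9 : θ * |s.im| ≤ |s.im| := by nlinarith
  nlinarith

theorem pert2 (s η : ℂ) (θ : ℝ) (h0 : 0 < θ) (h1 : θ ≤ 1) (hη : ‖η‖ ≤ θ / 10)
    (h : θ * |(s * (1 + η)).re| ≤ |(s * (1 + η)).im|) : θ / 2 * |s.re| ≤ |s.im| := by
  by_contra hcon
  push Not at hcon
  obtain ⟨h2, h3⟩ := aux_bounds s η
  have hη0 := norm_nonneg η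
  have hr := abs_nonneg s.re
  have hi := abs_nonneg s.im
  have hr' : 0 < |s.re| := by
    rcases hr.lt_or_eq with h | h
    · exact h
    · rw [← h] at hcon
      linarith
  have h4 : |(s * (1 + η)).im| ≤ |s.im| + ‖η‖ * (|s.re| + |s.im|) := by
    have := abs_sub_abs_le_abs_sub (s * (1 + η)).im s.im
    linarith
  have h5 : |s.re| ≤ |(s * (1 + η)).re| + ‖η‖ * (|s.re| + |s.im|) := by
    have := abs_sub_abs_le_abs_sub s.re (s * (1 + η)).re
    rw [abs_sub_comm] at this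
    linarith
  have h6 : ‖η‖ * (|s.re| + |s.im|) ≤ θ / 10 * (|s.re| + |s.im|) :=
    mul_le_mul_of_nonneg_right hη (by positivity)
  have h10 : |s.im| ≤ 1 / 2 * |s.re| := by nlinarith
  have h11 : θ / 10 * (|s.re| + |s.im|) ≤ θ / 10 * (3 / 2 * |s.re|) :=
    mul_le_mul_of_nonneg_left (by linarith) (by positivity)
  have h12 : θ / 10 * (3 / 2 * |s.re|) ≤ 3 / 20 * |s.re| := by nlinarith
  have h7 : θ * (|s.re| - 3 / 20 * |s.re|) ≤ θ * |(s * (1 + η)).re| :=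
    mul_le_mul_of_nonneg_left (by linarith) h0.le
  have h13 : 0 < θ * |s.re| := by positivity
  nlinarith

/-- the relation between the two local coordinates -/
theorem rel {e w' d' ζ : ℂ} (he : e ≠ 0) (hw : w' ≠ 0) (hd : d' ≠ 0) (hζ : ζ ≠ 0) :
    (ζ - w') / d' = ((‖w'‖ ^ 2 : ℝ) : ℂ) *
      (((e / ζ - e / w') / (-(d' * e) * ((‖w'‖ ^ 2 : ℝ) : ℂ) / w' ^ 2)) *
        (1 + (ζ - w') / w')) := by
  have hW : ((‖w'‖ ^ 2 : ℝ) : ℂ) ≠ 0 := by
    rw [Complex.ofReal_ne_zero]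
    exact pow_ne_zero 2 (norm_ne_zero_iff.2 hw)
  generalize ((‖w'‖ ^ 2 : ℝ) : ℂ) = κ at hW
  field_simp
  ring

theorem norm_d {e w' d' : ℂ} (he : ‖e‖ = 1) (hw : w' ≠ 0) (hd : ‖d'‖ = 1) :
    ‖-(d' * e) * ((‖w'‖ ^ 2 : ℝ) : ℂ) / w' ^ 2‖ = 1 := by
  have hW : ‖w'‖ ≠ 0 := norm_ne_zero_iff.2 hw
  rw [norm_div, norm_mul, norm_neg, norm_mul, hd, he, norm_pow, Complex.norm_real,
    Real.norm_of_nonneg (by positivity)]
  field_simp

theorem im_mul_real (κ : ℝ) (x : ℂ) (hκ : 0 < κ) : |((κ : ℂ) * x).im| = κ * |x.im| ∧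
    |((κ : ℂ) * x).re| = κ * |x.re| := by
  rw [Complex.im_ofReal_mul, Complex.re_ofReal_mul, abs_mul, abs_mul, abs_of_pos hκ]
  exact ⟨rfl, rfl⟩

/-- tangency is preserved by a Moebius transformation -/
theorem tangent_mob {Γ : Set ℂ} {e p' w d' : ℂ} (he : ‖e‖ = 1) (hd : ‖d'‖ = 1)
    (hwp : w ≠ p') (hΓ : p' ∉ Γ)
    (h : TangentAt ((fun z => e / (z - p')) '' Γ) (e / (w - p')) d') :
    TangentAt Γ w (-(d' * e) * ((‖e / (w - p')‖ ^ 2 : ℝ) : ℂ) / (e / (w - p')) ^ 2) := by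
  have he0 : e ≠ 0 := by
    intro h0
    rw [h0, norm_zero] at he
    exact zero_ne_one he
  have hd0 : d' ≠ 0 := by
    intro h0
    rw [h0, norm_zero] at hd
    exact zero_ne_one hd
  have hwp0 : w - p' ≠ 0 := sub_ne_zero.2 hwp
  obtain ⟨w', hw'⟩ : ∃ w', w' = e / (w - p') := ⟨_, rfl⟩
  rw [← hw'] at h ⊢
  have hw0 : w' ≠ 0 := by
    rw [hw']
    exact div_ne_zero he0 hwp0
  have hWn : 0 < ‖w'‖ := norm_pos_iff.2 hw0
  have hW : ‖w'‖ = 1 / ‖w - p'‖ := by rw [hw', norm_div, he]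
  have hwpn : 0 < ‖w - p'‖ := norm_pos_iff.2 hwp0
  intro θ hθ
  set θ' := min θ 1 / 2 with hθ'
  have hθ0 : 0 < θ' := by
    have : 0 < min θ 1 := lt_min hθ one_pos
    linarith
  have hθ1 : θ' ≤ 1 := by
    have : min θ 1 ≤ 1 := min_le_right _ _
    linarith
  have hθ2 : 2 * θ' ≤ θ := by
    have : min θ 1 ≤ θ := min_le_left _ _
    linarith
  obtain ⟨r, hr, hz⟩ := h θ' hθ0
  -- radius
  refine ⟨min (‖w - p'‖ / 2) (min (‖w - p'‖ ^ 2 / 2 * r) (‖w - p'‖ * (θ' / 20))),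
    lt_min (by positivity) (lt_min (by positivity) (by positivity)), ?_⟩
  intro z hzΓ hzr
  have hr1 := hzr.trans_le (min_le_left _ _)
  have hr2 := hzr.trans_le ((min_le_right _ _).trans (min_le_left _ _))
  have hr3 := hzr.trans_le ((min_le_right _ _).trans (min_le_right _ _))
  have hzp : z ≠ p' := fun h => hΓ (h ▸ hzΓ)
  have hzp0 : z - p' ≠ 0 := sub_ne_zero.2 hzp
  have hzpn : ‖w - p'‖ / 2 ≤ ‖z - p'‖ := by
    have h1 : ‖w - p'‖ ≤ ‖z - p'‖ + ‖z - w‖ := by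
      have : w - p' = (z - p') - (z - w) := by ring
      rw [this]
      exact norm_sub_le _ _
    linarith
  obtain ⟨ζ, hζ⟩ : ∃ ζ, ζ = e / (z - p') := ⟨_, rfl⟩
  have hζ0 : ζ ≠ 0 := by
    rw [hζ]
    exact div_ne_zero he0 hzp0
  have h2 : e / ζ - e / w' = z - w := by
    rw [hζ, hw']
    field_simp
    ring
  have h3 : ζ - w' = - (e * (z - w)) / ((z - p') * (w - p')) := by
    rw [hζ, hw']
    field_simp
    ring
  have h4 : ‖ζ - w'‖ ≤ 2 / ‖w - p'‖ ^ 2 * ‖z - w‖ := by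
    rw [h3, norm_div, norm_neg, norm_mul, norm_mul, he, one_mul]
    rw [div_le_iff₀ (by positivity)]
    have h5 : ‖w - p'‖ / 2 * ‖w - p'‖ ≤ ‖z - p'‖ * ‖w - p'‖ :=
      mul_le_mul_of_nonneg_right hzpn hwpn.le
    calc ‖z - w‖ = 2 / ‖w - p'‖ ^ 2 * ‖z - w‖ * (‖w - p'‖ / 2 * ‖w - p'‖) := by
          field_simp
      _ ≤ 2 / ‖w - p'‖ ^ 2 * ‖z - w‖ * (‖z - p'‖ * ‖w - p'‖) :=
          mul_le_mul_of_nonneg_left h5 (by positivity)
  have h5 : ‖ζ - w'‖ < r := by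
    refine h4.trans_lt ?_
    calc 2 / ‖w - p'‖ ^ 2 * ‖z - w‖ < 2 / ‖w - p'‖ ^ 2 * (‖w - p'‖ ^ 2 / 2 * r) :=
          mul_lt_mul_of_pos_left hr2 (by positivity)
      _ = r := by field_simp
  have h6 := hz ζ ⟨z, hzΓ, hζ.symm⟩ h5
  have hη : ‖(ζ - w') / w'‖ ≤ θ' / 10 := by
    rw [norm_div, hW, div_le_iff₀ (by positivity)]
    refine h4.trans ?_
    calc 2 / ‖w - p'‖ ^ 2 * ‖z - w‖ ≤ 2 / ‖w - p'‖ ^ 2 * (‖w - p'‖ * (θ' / 20)) :=
          mul_le_mul_of_nonneg_left hr3.le (by positivity)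
      _ = θ' / 10 * (1 / ‖w - p'‖) := by
          field_simp
          norm_num
  rw [rel he0 hw0 hd0 hζ0, h2, (im_mul_real _ _ (by positivity)).1,
    (im_mul_real _ _ (by positivity)).2, ← mul_assoc, mul_comm θ', mul_assoc] at h6
  have h7 := le_of_mul_le_mul_left h6 (by positivity)
  have h8 := pert1 _ _ θ' hθ0 hθ1 hη h7
  refine h8.trans (mul_le_mul_of_nonneg_right hθ2 (abs_nonneg _))

/-- growth is preserved by a Moebius transformation -/
theorem growth_mob {N N' : ℂ → ℝ} {e p' w d' : ℂ} {A : ℕ} (he : ‖e‖ = 1) (hd : ‖d'‖ = 1)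
    (hwp : w ≠ p')
    (hN : ∀ ζ : ℂ, ζ ≠ 0 → N' ζ ≤ 1 / ‖ζ‖ + 1 / ‖ζ‖ ^ 2 * N (p' + e / ζ))
    (h : ConeGrowth N w (-(d' * e) * ((‖e / (w - p')‖ ^ 2 : ℝ) : ℂ) / (e / (w - p')) ^ 2) A) :
    ConeGrowth N' (e / (w - p')) d' A := by
  have he0 : e ≠ 0 := by
    intro h0
    rw [h0, norm_zero] at he
    exact zero_ne_one he
  have hd0 : d' ≠ 0 := by
    intro h0
    rw [h0, norm_zero] at hd
    exact zero_ne_one hd
  have hwp0 : w - p' ≠ 0 := sub_ne_zero.2 hwp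
  have hwe : p' + e / (e / (w - p')) = w := by
    field_simp
    ring
  obtain ⟨w', hw'⟩ : ∃ w', w' = e / (w - p') := ⟨_, rfl⟩
  rw [← hw'] at h ⊢
  rw [← hw'] at hwe
  have hw0 : w' ≠ 0 := by
    rw [hw']
    exact div_ne_zero he0 hwp0
  obtain ⟨W, hW⟩ : ∃ W, W = ‖w'‖ := ⟨_, rfl⟩
  have hWn : 0 < W := by rw [hW]; exact norm_pos_iff.2 hw0
  intro θ hθ
  set θ' := min θ 1 with hθ'
  have hθ0 : 0 < θ' := lt_min hθ one_pos
  have hθ1 : θ' ≤ 1 := min_le_right _ _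
  have hθ2 : θ' ≤ θ := min_le_left _ _
  obtain ⟨C, r, hr, hz⟩ := h (θ' / 2) (by positivity)
  refine ⟨2 / W + 4 / W ^ 2 + |C| * (3 * W ^ 2 / 2) ^ A,
    min (W / 2) (min (W ^ 2 / 2 * r) (min (W * (θ' / 10)) 1)),
    lt_min (by positivity) (lt_min (by positivity) (lt_min (by positivity) one_pos)), ?_⟩
  intro ζ hζw hζr hcone
  have hr1 := hζr.trans_le (min_le_left _ _)
  have hr2 := hζr.trans_le ((min_le_right _ _).trans (min_le_left _ _))
  have hr3 := hζr.trans_le ((min_le_right _ _).trans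
    ((min_le_right _ _).trans (min_le_left _ _)))
  have hr4 := hζr.trans_le ((min_le_right _ _).trans
    ((min_le_right _ _).trans (min_le_right _ _)))
  have hx0 : 0 < ‖ζ - w'‖ := norm_pos_iff.2 (sub_ne_zero.2 hζw)
  have hζl : W / 2 ≤ ‖ζ‖ := by
    have h1 : ‖w'‖ ≤ ‖ζ‖ + ‖ζ - w'‖ := by
      have : w' = ζ - (ζ - w') := by ring
      conv_lhs => rw [this]
      exact norm_sub_le _ _
    rw [← hW] at h1
    linarith
  have hζu : ‖ζ‖ ≤ 3 * W / 2 := by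
    have h1 : ‖ζ‖ ≤ ‖w'‖ + ‖ζ - w'‖ := by
      have : ζ = w' + (ζ - w') := by ring
      conv_lhs => rw [this]
      exact norm_add_le _ _
    rw [← hW] at h1
    linarith
  have hζn : 0 < ‖ζ‖ := lt_of_lt_of_le (by positivity) hζl
  have hζ0 : ζ ≠ 0 := norm_pos_iff.1 hζn
  have hzw : p' + e / ζ - w = e / ζ - e / w' := by
    rw [← hwe]
    field_simp
    ring
  have h3 : e / ζ - e / w' = - (e * (ζ - w')) / (ζ * w') := by
    field_simp
    ring
  have h4 : ‖p' + e / ζ - w‖ = ‖ζ - w'‖ / (‖ζ‖ * W) := by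
    rw [hzw, h3, norm_div, norm_neg, norm_mul, norm_mul, he, one_mul, hW]
  have h5 : ‖p' + e / ζ - w‖ < r := by
    rw [h4, div_lt_iff₀ (by positivity)]
    calc ‖ζ - w'‖ < W ^ 2 / 2 * r := hr2
      _ = r * (W / 2 * W) := by ring
      _ ≤ r * (‖ζ‖ * W) := by
          refine mul_le_mul_of_nonneg_left ?_ hr.le
          exact mul_le_mul_of_nonneg_right hζl hWn.le
  have h6 : ‖ζ - w'‖ / (3 * W ^ 2 / 2) ≤ ‖p' + e / ζ - w‖ := by
    rw [h4]
    refine div_le_div_of_nonneg_left hx0.le (by positivity) ?_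
    calc ‖ζ‖ * W ≤ 3 * W / 2 * W := mul_le_mul_of_nonneg_right hζu hWn.le
      _ = 3 * W ^ 2 / 2 := by ring
  have hne : p' + e / ζ ≠ w := by
    intro h7
    rw [h7, sub_self, norm_zero] at h6
    have : 0 < ‖ζ - w'‖ / (3 * W ^ 2 / 2) := by positivity
    linarith
  have hη : ‖(ζ - w') / w'‖ ≤ θ' / 10 := by
    rw [norm_div, ← hW, div_le_iff₀ hWn]
    linarith
  have hcone' : θ' * |((ζ - w') / d').re| ≤ |((ζ - w') / d').im| :=
    (mul_le_mul_of_nonneg_right hθ2 (abs_nonneg _)).trans hcone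
  have hWp : 0 < ‖w'‖ ^ 2 := by rw [← hW]; positivity
  rw [rel he0 hw0 hd0 hζ0, (im_mul_real _ _ hWp).1,
    (im_mul_real _ _ hWp).2, ← mul_assoc, mul_comm θ', mul_assoc, ← hzw] at hcone'
  have h7 := le_of_mul_le_mul_left hcone' hWp
  have h8 := pert2 _ _ θ' hθ0 hθ1 hη h7
  have h9 := hz (p' + e / ζ) hne h5 h8
  have h10 : C / ‖p' + e / ζ - w‖ ^ A ≤ |C| * (3 * W ^ 2 / 2) ^ A / ‖ζ - w'‖ ^ A := by
    have hd1 : 0 < ‖p' + e / ζ - w‖ := lt_of_lt_of_le (by positivity) h6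
    calc C / ‖p' + e / ζ - w‖ ^ A ≤ |C| / ‖p' + e / ζ - w‖ ^ A :=
          div_le_div_of_nonneg_right (le_abs_self C) (by positivity)
      _ ≤ |C| / (‖ζ - w'‖ / (3 * W ^ 2 / 2)) ^ A := by
          refine div_le_div_of_nonneg_left (abs_nonneg _) (by positivity) ?_
          exact pow_le_pow_left₀ (by positivity) h6 A
      _ = |C| * (3 * W ^ 2 / 2) ^ A / ‖ζ - w'‖ ^ A := by
          rw [div_pow, div_div_eq_mul_div]
  have hxA : ‖ζ - w'‖ ^ A ≤ 1 := pow_le_one₀ hx0.le hr4.le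
  have hxA0 : 0 < ‖ζ - w'‖ ^ A := by positivity
  set Y := |C| * (3 * W ^ 2 / 2) ^ A / ‖ζ - w'‖ ^ A with hY
  have hY0 : 0 ≤ Y := by positivity
  have hN0 : N (p' + e / ζ) ≤ Real.exp Y := h9.trans (Real.exp_le_exp.2 h10)
  have h11 : N' ζ ≤ 2 / W + 4 / W ^ 2 * Real.exp Y := by
    refine (hN ζ hζ0).trans ?_
    have a1 : 1 / ‖ζ‖ ≤ 2 / W := by
      rw [div_le_div_iff₀ hζn hWn]
      linarith
    have a2 : 1 / ‖ζ‖ ^ 2 ≤ 4 / W ^ 2 := by
      rw [div_le_div_iff₀ (by positivity) (by positivity)]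
      nlinarith
    refine add_le_add a1 ?_
    exact (mul_le_mul_of_nonneg_left hN0 (by positivity)).trans
      (mul_le_mul_of_nonneg_right a2 (Real.exp_pos _).le)
  have h12 : 2 / W + 4 / W ^ 2 * Real.exp Y ≤ Real.exp (2 / W + 4 / W ^ 2 + Y) := by
    have a1 : 0 ≤ 2 / W := by positivity
    have a2 : 0 ≤ 4 / W ^ 2 := by positivity
    have a3 : 1 ≤ Real.exp Y := Real.one_le_exp hY0
    have a4 : 2 / W + 4 / W ^ 2 + 1 ≤ Real.exp (2 / W + 4 / W ^ 2) := Real.add_one_le_exp _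
    rw [Real.exp_add]
    nlinarith [Real.exp_pos Y]
  refine h11.trans (h12.trans (Real.exp_le_exp.2 ?_))
  rw [add_div, ← hY]
  have a5 : 2 / W + 4 / W ^ 2 ≤ (2 / W + 4 / W ^ 2) / ‖ζ - w'‖ ^ A := by
    rw [le_div_iff₀ hxA0]
    have : 0 ≤ 2 / W + 4 / W ^ 2 := by positivity
    nlinarith
  linarith

/-! ### The operator -/

section op

set_option linter.unusedSectionVars false

variable {X : Type} [NormedAddCommGroup X] [NormedSpace ℂ X] [CompleteSpace X]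

omit [CompleteSpace X] in
theorem resolvent_mul {T : X →L[ℂ] X} {z : ℂ} (hz : z ∈ resolventSet ℂ T) :
    resolvent T z * (z • (1 : X →L[ℂ] X) - T) = 1 ∧
    (z • (1 : X →L[ℂ] X) - T) * resolvent T z = 1 := by
  rw [spectrum.mem_resolventSet_iff, Algebra.algebraMap_eq_smul_one] at hz
  unfold resolvent
  rw [Algebra.algebraMap_eq_smul_one]
  exact ⟨Ring.inverse_mul_cancel _ hz, Ring.mul_inverse_cancel _ hz⟩

theorem resolvent_identity {T : X →L[ℂ] X} {z u : ℂ} (hz : z ∈ resolventSet ℂ T)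
    (hu : u ∈ resolventSet ℂ T) :
    resolvent T u - resolvent T z = (z - u) • (resolvent T u * resolvent T z) := by
  have h1 := (resolvent_mul hu).1
  have h2 := (resolvent_mul hz).2
  calc resolvent T u - resolvent T z
      = resolvent T u * ((z • (1 : X →L[ℂ] X) - T) * resolvent T z) -
        (resolvent T u * (u • (1 : X →L[ℂ] X) - T)) * resolvent T z := by
        rw [h1, h2, mul_one, one_mul]
    _ = resolvent T u * (((z • (1 : X →L[ℂ] X) - T) - (u • (1 : X →L[ℂ] X) - T)) *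
        resolvent T z) := by noncomm_ring
    _ = resolvent T u * (((z - u) • (1 : X →L[ℂ] X)) * resolvent T z) := by
        congr 2
        module
    _ = (z - u) • (resolvent T u * resolvent T z) := by
        rw [smul_mul_assoc, one_mul, mul_smul_comm]

theorem resolvent_comm {T : X →L[ℂ] X} {z u : ℂ} (hz : z ∈ resolventSet ℂ T)
    (hu : u ∈ resolventSet ℂ T) (hzu : z ≠ u) :
    resolvent T u * resolvent T z = resolvent T z * resolvent T u := by
  have h1 := resolvent_identity hz hu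
  have h2 := resolvent_identity hu hz
  have h3 : (z - u) • (resolvent T u * resolvent T z) =
      (z - u) • (resolvent T z * resolvent T u) := by
    rw [← h1]
    have : (z - u) • (resolvent T z * resolvent T u) =
        -((u - z) • (resolvent T z * resolvent T u)) := by module
    rw [this, ← h2]
    abel
  exact smul_right_injective _ (sub_ne_zero.2 hzu) h3

theorem inv_formula {T : X →L[ℂ] X} {e p' z : ℂ} (he : e ≠ 0) (hp : p' ∈ resolventSet ℂ T)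
    (hz : z ∈ resolventSet ℂ T) (hzp : z ≠ p') :
    ((e / (z - p')) • (1 : X →L[ℂ] X) - (-e) • resolvent T p') *
      (e⁻¹ • ((z - p') • (1 : X →L[ℂ] X) - (z - p') ^ 2 • resolvent T z)) = 1 ∧
    (e⁻¹ • ((z - p') • (1 : X →L[ℂ] X) - (z - p') ^ 2 • resolvent T z)) *
      ((e / (z - p')) • (1 : X →L[ℂ] X) - (-e) • resolvent T p') = 1 := by
  have h1 := resolvent_identity hz hp
  have h2 := resolvent_comm hz hp hzp
  generalize resolvent T p' = a at h1 h2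
  generalize resolvent T z = b at h1 h2
  have ht : z - p' ≠ 0 := sub_ne_zero.2 hzp
  generalize z - p' = t at h1 ht
  have hb : b = a - t • (a * b) := by rw [← h1]; abel
  constructor
  · have h3 : ((e / t) • (1 : X →L[ℂ] X) - (-e) • a) * (e⁻¹ • (t • (1 : X →L[ℂ] X) - t ^ 2 • b)) =
        ((e / t) * e⁻¹ * t) • (1 : X →L[ℂ] X) - ((e / t) * e⁻¹ * t ^ 2) • b +
          (e * e⁻¹ * t) • a - (e * e⁻¹ * t ^ 2) • (a * b) := by
      simp only [sub_mul, mul_sub, smul_mul_assoc, mul_smul_comm, one_mul, mul_one]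
      module
    have e1 : (e / t) * e⁻¹ * t = 1 := by field_simp
    have e2 : (e / t) * e⁻¹ * t ^ 2 = t := by field_simp
    have e3 : e * e⁻¹ * t = t := by field_simp
    have e4 : e * e⁻¹ * t ^ 2 = t ^ 2 := by field_simp
    rw [h3, e1, e2, e3, e4]
    have h4 : (1 : ℂ) • (1 : X →L[ℂ] X) - t • b + t • a - t ^ 2 • (a * b) =
        1 + t • ((a - b) - t • (a * b)) := by module
    rw [h4, h1, sub_self, smul_zero, add_zero]
  · have h3 : (e⁻¹ • (t • (1 : X →L[ℂ] X) - t ^ 2 • b)) * ((e / t) • (1 : X →L[ℂ] X) - (-e) • a) =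
        ((e / t) * e⁻¹ * t) • (1 : X →L[ℂ] X) - ((e / t) * e⁻¹ * t ^ 2) • b +
          (e * e⁻¹ * t) • a - (e * e⁻¹ * t ^ 2) • (b * a) := by
      simp only [sub_mul, mul_sub, smul_mul_assoc, mul_smul_comm, one_mul, mul_one]
      module
    have e1 : (e / t) * e⁻¹ * t = 1 := by field_simp
    have e2 : (e / t) * e⁻¹ * t ^ 2 = t := by field_simp
    have e3 : e * e⁻¹ * t = t := by field_simp
    have e4 : e * e⁻¹ * t ^ 2 = t ^ 2 := by field_simp
    rw [h3, e1, e2, e3, e4, ← h2]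
    have h4 : (1 : ℂ) • (1 : X →L[ℂ] X) - t • b + t • a - t ^ 2 • (a * b) =
        1 + t • ((a - b) - t • (a * b)) := by module
    rw [h4, h1, sub_self, smul_zero, add_zero]

/-- the resolvent of the transformed operator -/
theorem res_mob {T : X →L[ℂ] X} {e p' z : ℂ} (he : ‖e‖ = 1) (hp : p' ∈ resolventSet ℂ T)
    (hz : z ∈ resolventSet ℂ T) (hzp : z ≠ p') :
    e / (z - p') ∈ resolventSet ℂ ((-e) • resolvent T p') ∧
    ‖resolvent ((-e) • resolvent T p') (e / (z - p'))‖ ≤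
      1 / ‖e / (z - p')‖ + 1 / ‖e / (z - p')‖ ^ 2 * ‖resolvent T z‖ := by
  have he0 : e ≠ 0 := by
    intro h0
    rw [h0, norm_zero] at he
    exact zero_ne_one he
  obtain ⟨h1, h2⟩ := inv_formula he0 hp hz hzp
  have ht : z - p' ≠ 0 := sub_ne_zero.2 hzp
  have hunit : IsUnit ((e / (z - p')) • (1 : X →L[ℂ] X) - (-e) • resolvent T p') :=
    ⟨⟨_, _, h1, h2⟩, rfl⟩
  refine ⟨?_, ?_⟩
  · rw [spectrum.mem_resolventSet_iff, Algebra.algebraMap_eq_smul_one]
    exact hunit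
  · have h3 : resolvent ((-e) • resolvent T p') (e / (z - p')) =
        e⁻¹ • ((z - p') • (1 : X →L[ℂ] X) - (z - p') ^ 2 • resolvent T z) := by
      have h4 : resolvent ((-e) • resolvent T p') (e / (z - p')) =
          Ring.inverse ((e / (z - p')) • (1 : X →L[ℂ] X) - (-e) • resolvent T p') := by
        unfold resolvent
        rw [Algebra.algebraMap_eq_smul_one]
      rw [h4]
      exact Ring.inverse_unit ⟨_, _, h1, h2⟩
    rw [h3, norm_smul, norm_inv, he, inv_one, one_mul, norm_div, he]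
    refine (norm_sub_le _ _).trans ?_
    rw [norm_smul, norm_smul, norm_pow, one_div_one_div]
    have e1 : 1 / (1 / ‖z - p'‖) ^ 2 = ‖z - p'‖ ^ 2 := by
      rw [div_pow, one_pow, one_div_one_div]
    rw [e1]
    refine add_le_add ?_ le_rfl
    have h5 : ‖(1 : X →L[ℂ] X)‖ ≤ 1 := ContinuousLinearMap.norm_id_le
    calc ‖z - p'‖ * ‖(1 : X →L[ℂ] X)‖ ≤ ‖z - p'‖ * 1 :=
          mul_le_mul_of_nonneg_left h5 (norm_nonneg _)
      _ = ‖z - p'‖ := mul_one _

theorem zero_mob {T : X →L[ℂ] X} {e p' : ℂ} (he : e ≠ 0) (hp : p' ∈ resolventSet ℂ T) :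
    (0 : ℂ) ∈ resolventSet ℂ ((-e) • resolvent T p') := by
  rw [spectrum.mem_resolventSet_iff, map_zero, zero_sub, neg_smul, neg_neg]
  obtain ⟨h1, h2⟩ := resolvent_mul hp
  refine ⟨⟨e • resolvent T p', e⁻¹ • (p' • (1 : X →L[ℂ] X) - T), ?_, ?_⟩, rfl⟩
  · rw [smul_mul_smul_comm, h1, mul_inv_cancel₀ he, one_smul]
  · rw [smul_mul_smul_comm, h2, inv_mul_cancel₀ he, one_smul]

theorem spec_mob {T : X →L[ℂ] X} {e p' z : ℂ} (he : e ≠ 0) (hp : p' ∈ resolventSet ℂ T)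
    (hzp : z ≠ p') (hz : e / (z - p') ∈ resolventSet ℂ ((-e) • resolvent T p')) :
    z ∈ resolventSet ℂ T := by
  have ht : z - p' ≠ 0 := sub_ne_zero.2 hzp
  rw [spectrum.mem_resolventSet_iff, Algebra.algebraMap_eq_smul_one] at hz
  obtain ⟨h1, h2⟩ := resolvent_mul hp
  have hp' : IsUnit (p' • (1 : X →L[ℂ] X) - T) := ⟨⟨_, _, h2, h1⟩, rfl⟩
  have hs : IsUnit (((z - p') * e⁻¹) • (1 : X →L[ℂ] X)) := by
    rw [← Algebra.algebraMap_eq_smul_one]
    exact (isUnit_iff_ne_zero.2 (mul_ne_zero ht (inv_ne_zero he))).map (algebraMap ℂ (X →L[ℂ] X))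
  have h3 := hs.mul (hz.mul hp')
  rw [spectrum.mem_resolventSet_iff, Algebra.algebraMap_eq_smul_one]
  convert h3 using 1
  have h4 : ((e / (z - p')) • (1 : X →L[ℂ] X) - (-e) • resolvent T p') *
      (p' • (1 : X →L[ℂ] X) - T) =
      (e / (z - p')) • (p' • (1 : X →L[ℂ] X) - T) + e • (1 : X →L[ℂ] X) := by
    rw [sub_mul, smul_mul_assoc, one_mul, smul_mul_assoc, h1, neg_smul, sub_neg_eq_add]
  rw [h4, smul_mul_assoc, one_mul, smul_add, smul_smul, smul_smul]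
  have e1 : (z - p') * e⁻¹ * (e / (z - p')) = 1 := by field_simp
  have e2 : (z - p') * e⁻¹ * e = z - p' := by field_simp
  rw [e1, e2]
  module

theorem growth_fun {T : X →L[ℂ] X} {e p' : ℂ} (he : ‖e‖ = 1) (hp : p' ∈ resolventSet ℂ T)
    (ζ : ℂ) (hζ : ζ ≠ 0) :
    ‖resolvent ((-e) • resolvent T p') ζ‖ ≤
      1 / ‖ζ‖ + 1 / ‖ζ‖ ^ 2 * ‖resolvent T (p' + e / ζ)‖ := by
  have he0 : e ≠ 0 := by
    intro h0
    rw [h0, norm_zero] at he
    exact zero_ne_one he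
  have h1 : e / (p' + e / ζ - p') = ζ := by
    rw [add_sub_cancel_left]
    field_simp
  have h2 : p' + e / ζ ≠ p' := by
    intro h
    rw [add_eq_left] at h
    exact div_ne_zero he0 hζ h
  by_cases hz : p' + e / ζ ∈ resolventSet ℂ T
  · have := (res_mob he hp hz h2).2
    rwa [h1] at this
  · have h3 : ζ ∉ resolventSet ℂ ((-e) • resolvent T p') := by
      intro h
      apply hz
      apply spec_mob he0 hp h2
      rw [h1]
      exact h
    have h4 : resolvent ((-e) • resolvent T p') ζ = 0 := by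
      unfold resolvent at *
      rw [spectrum.mem_resolventSet_iff] at h3
      exact Ring.inverse_non_unit _ h3
    rw [h4, norm_zero]
    positivity

theorem hyp_mob {T : X →L[ℂ] X} {e p' : ℂ} (hp : p' ∈ resolventSet ℂ T)
    (h : HasHyp ((-e) • resolvent T p')) : HasHyp T := by
  obtain ⟨V, hVc, hV0, hV1, hVQ⟩ := h
  refine ⟨V, hVc, hV0, hV1, fun Q hQ x hx => hVQ Q ?_ x hx⟩
  obtain ⟨h1, h2⟩ := resolvent_mul hp
  have h3 : Q * (p' • (1 : X →L[ℂ] X) - T) = (p' • (1 : X →L[ℂ] X) - T) * Q := by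
    rw [mul_sub, sub_mul, hQ, mul_smul_comm, smul_mul_assoc, mul_one, one_mul]
  have h4 : Q * resolvent T p' = resolvent T p' * Q := by
    calc Q * resolvent T p'
        = (resolvent T p' * (p' • (1 : X →L[ℂ] X) - T)) * Q * resolvent T p' := by
          rw [h1, one_mul]
      _ = resolvent T p' * (Q * (p' • (1 : X →L[ℂ] X) - T)) * resolvent T p' := by
          rw [h3]; noncomm_ring
      _ = resolvent T p' * Q * ((p' • (1 : X →L[ℂ] X) - T) * resolvent T p') := by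
          noncomm_ring
      _ = resolvent T p' * Q := by rw [h2, mul_one]
  rw [mul_smul_comm, smul_mul_assoc, h4]

end op

/-- a point near `p` off the curve -/
theorem off_curve (hB : P_B1) (γ : ℝ → ℂ) (K : NNReal) (hγ : LipschitzWith K γ) (p : ℂ) (ρ : ℝ)
    (hρ : 0 < ρ) : ∃ p' : ℂ, ‖p' - p‖ < ρ ∧ p' ∉ γ '' Set.Icc 0 1 := by
  obtain ⟨c, hc, Z, dir, hgl⟩ := hB γ K hγ (p.re - ρ / 2) (p.re + ρ / 2) (by linarith)
  have hinf : (Set.Ioo (p.im - ρ / 2) (p.im + ρ / 2)).Infinite :=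
    Set.Ioo_infinite (by linarith)
  have hfin : ((fun z : ℂ => z.im) '' (Z : Set ℂ)).Finite := Z.finite_toSet.image _
  obtain ⟨y, hy, hyZ⟩ := (hinf.sdiff hfin).nonempty
  refine ⟨⟨c, y⟩, ?_, ?_⟩
  · have h1 := Complex.norm_le_abs_re_add_abs_im ((⟨c, y⟩ : ℂ) - p)
    rw [Complex.sub_re, Complex.sub_im] at h1
    have h2 : |c - p.re| < ρ / 2 := abs_lt.2 ⟨by linarith [hc.1], by linarith [hc.2]⟩
    have h3 : |y - p.im| < ρ / 2 := abs_lt.2 ⟨by linarith [hy.1], by linarith [hy.2]⟩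
    have h1' : ‖(⟨c, y⟩ : ℂ) - p‖ ≤ |c - p.re| + |y - p.im| := h1
    linarith
  · intro h
    exact hyZ ⟨⟨c, y⟩, (hgl.1 _).2 ⟨h, rfl⟩, rfl⟩

/-- the local version by a Moebius transformation -/
theorem main (h1 : P_H1) (hB : P_B1) : P_H2 := by
  intro X _ _ _ T γ K hγ U hU hspec hpU hnt hgr
  obtain ⟨p, hp, hpU⟩ := hpU
  obtain ⟨q, hq, hqp⟩ := hnt.exists_ne p
  obtain ⟨A, hgrA⟩ := hgr
  obtain ⟨ρ₁, hρ₁, hball⟩ := Metric.isOpen_iff.1 hU p hpU
  have hqpn : 0 < ‖q - p‖ := norm_pos_iff.2 (sub_ne_zero.2 hqp)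
  obtain ⟨ρ, hρ0, hρ1, hρ2⟩ : ∃ ρ : ℝ, 0 < ρ ∧ ρ ≤ ρ₁ ∧ ρ ≤ ‖q - p‖ :=
    ⟨min ρ₁ ‖q - p‖, lt_min hρ₁ hqpn, min_le_left _ _, min_le_right _ _⟩
  have hballU : ∀ z : ℂ, ‖z - p‖ < ρ → z ∈ U := fun z hz => hball (by
    rw [Metric.mem_ball, dist_eq_norm]
    exact hz.trans_le hρ1)
  obtain ⟨p', hp'p, hp'Γ⟩ := off_curve hB γ K hγ p (ρ / 4) (by positivity)
  obtain ⟨Γ, hΓ⟩ : ∃ Γ : Set ℂ, Γ = γ '' Set.Icc 0 1 := ⟨_, rfl⟩
  have hp'U : p' ∈ U := hballU p' (by linarith)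
  have hp'r : p' ∈ resolventSet ℂ T := by
    by_contra h
    exact hp'Γ (hspec p' h hp'U)
  have hpΓ : p ∈ γ '' Set.Icc 0 1 := hspec p hp hpU
  have hpp' : p ≠ p' := fun h => hp'Γ (h ▸ hpΓ)
  have hpp0 : p - p' ≠ 0 := sub_ne_zero.2 hpp'
  have hppn : 0 < ‖p - p'‖ := norm_pos_iff.2 hpp0
  have hppn' : ‖p - p'‖ < ρ / 4 := by rw [norm_sub_rev]; exact hp'p
  obtain ⟨e, he⟩ : ∃ e : ℂ, e = (p - p') / (‖p - p'‖ : ℂ) := ⟨_, rfl⟩
  have hen : ‖e‖ = 1 := by
    rw [he, norm_div, Complex.norm_real, norm_norm, div_self hppn.ne']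
  have he0 : e ≠ 0 := by
    intro h0
    rw [h0, norm_zero] at hen
    exact zero_ne_one hen
  have hep : e / (p - p') = ((1 / ‖p - p'‖ : ℝ) : ℂ) := by
    have h0 : (‖p - p'‖ : ℂ) ≠ 0 := by exact_mod_cast hppn.ne'
    rw [he]
    push_cast
    field_simp
  -- the transformed curve
  have hcompΓ : IsCompact (γ '' Set.Icc 0 1) := isCompact_Icc.image hγ.continuous
  have hne : (γ '' Set.Icc (0 : ℝ) 1).Nonempty := ⟨p, hpΓ⟩
  obtain ⟨η, hη0, hη⟩ : ∃ η : ℝ, 0 < η ∧ ∀ z ∈ γ '' Set.Icc (0 : ℝ) 1, η ≤ ‖z - p'‖ := by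
    refine ⟨infDist p' (γ '' Set.Icc 0 1), ?_, ?_⟩
    · exact (hcompΓ.isClosed.notMem_iff_infDist_pos hne).1 hp'Γ
    · intro z hz
      have := infDist_le_dist_of_mem (x := p') hz
      rwa [dist_comm, dist_eq_norm] at this
  obtain ⟨γ', hγ'⟩ : ∃ γ' : ℝ → ℂ,
      γ' = fun t => e / (γ (Set.projIcc (0 : ℝ) 1 zero_le_one t) - p') := ⟨_, rfl⟩
  have hproj : ∀ t : ℝ, γ (Set.projIcc (0 : ℝ) 1 zero_le_one t) ∈ γ '' Set.Icc (0 : ℝ) 1 :=
    fun t => ⟨_, (Set.projIcc (0 : ℝ) 1 zero_le_one t).2, rfl⟩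
  have hL : LipschitzWith (K * (Real.toNNReal (1 / η ^ 2))) γ' := by
    refine LipschitzWith.of_dist_le_mul fun s t => ?_
    rw [hγ']
    show dist (e / (γ (Set.projIcc (0 : ℝ) 1 zero_le_one s) - p'))
      (e / (γ (Set.projIcc (0 : ℝ) 1 zero_le_one t) - p')) ≤ _
    have hs := hproj s
    have ht := hproj t
    have a1 := hη _ hs
    have a2 := hη _ ht
    have a3 : dist (γ (Set.projIcc (0 : ℝ) 1 zero_le_one s))
        (γ (Set.projIcc (0 : ℝ) 1 zero_le_one t)) ≤ K * dist s t := by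
      refine (hγ.dist_le_mul _ _).trans ?_
      refine mul_le_mul_of_nonneg_left ?_ K.2
      have := (LipschitzWith.projIcc (a := (0 : ℝ)) (b := 1) zero_le_one).dist_le_mul s t
      rwa [NNReal.coe_one, one_mul] at this
    generalize γ (Set.projIcc (0 : ℝ) 1 zero_le_one s) = u at *
    generalize γ (Set.projIcc (0 : ℝ) 1 zero_le_one t) = v at *
    have b1 : 0 < ‖u - p'‖ := lt_of_lt_of_le hη0 a1
    have b2 : 0 < ‖v - p'‖ := lt_of_lt_of_le hη0 a2
    have b3 : u - p' ≠ 0 := norm_pos_iff.1 b1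
    have b4 : v - p' ≠ 0 := norm_pos_iff.1 b2
    rw [NNReal.coe_mul, Real.coe_toNNReal _ (by positivity)]
    rw [dist_eq_norm]
    have b5 : e / (u - p') - e / (v - p') = -(e * (u - v)) / ((u - p') * (v - p')) := by
      field_simp
      ring
    rw [b5, norm_div, norm_neg, norm_mul, norm_mul, hen, one_mul, ← dist_eq_norm]
    have b6 : η ^ 2 ≤ ‖u - p'‖ * ‖v - p'‖ := by
      rw [sq]
      exact mul_le_mul a1 a2 hη0.le b1.le
    calc dist u v / (‖u - p'‖ * ‖v - p'‖) ≤ dist u v / η ^ 2 :=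
          div_le_div_of_nonneg_left dist_nonneg (by positivity) b6
      _ ≤ K * dist s t / η ^ 2 := div_le_div_of_nonneg_right a3 (by positivity)
      _ = K * (1 / η ^ 2) * dist s t := by ring
  have himg : γ' '' Set.Icc 0 1 = (fun z => e / (z - p')) '' (γ '' Set.Icc 0 1) := by
    rw [Set.image_image]
    refine Set.image_congr fun t ht => ?_
    rw [hγ']
    simp only
    rw [Set.projIcc_of_mem zero_le_one ht]
  -- apply H1
  refine hyp_mob (e := e) hp'r ?_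
  refine h1 X ((-e) • resolvent T p') γ' _ hL (2 / ρ) ?_ (e / (p - p')) ?_ (e / (q - p')) ?_ ?_ ?_
    ⟨A, ?_⟩
  · intro ζ hζ hare
    rw [himg]
    have hζ0 : ζ ≠ 0 := by
      rintro rfl
      exact hζ (zero_mob he0 hp'r)
    have hζn : 0 < ‖ζ‖ := norm_pos_iff.2 hζ0
    have h2 : e / (p' + e / ζ - p') = ζ := by
      rw [add_sub_cancel_left]
      field_simp
    have h3 : p' + e / ζ ≠ p' := by
      intro h
      rw [add_eq_left] at h
      exact div_ne_zero he0 hζ0 h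
    have h4 : p' + e / ζ ∈ spectrum ℂ T := by
      intro hz
      apply hζ
      have := (res_mob hen hp'r hz h3).1
      rwa [h2] at this
    have h5 : ‖e / ζ‖ < ρ / 2 := by
      rw [norm_div, hen, div_lt_iff₀ hζn]
      have h6 : 2 / ρ < ‖ζ‖ := hare.trans_le (Complex.re_le_norm ζ)
      calc (1 : ℝ) = ρ / 2 * (2 / ρ) := by field_simp
        _ < ρ / 2 * ‖ζ‖ := mul_lt_mul_of_pos_left h6 (by positivity)
    have h6 : p' + e / ζ ∈ U := by
      apply hballU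
      have : p' + e / ζ - p = (p' - p) + e / ζ := by ring
      rw [this]
      refine (norm_add_le _ _).trans_lt ?_
      linarith
    exact ⟨_, hspec _ h4 h6, h2⟩
  · intro h
    exact hp (spec_mob he0 hp'r hpp' h)
  · intro h
    refine hq (spec_mob he0 hp'r ?_ h)
    intro hqp'
    rw [hqp'] at hρ2
    linarith
  · rw [hep, Complex.ofReal_re, div_lt_div_iff₀ hρ0 hppn]
    linarith
  · rw [hep, Complex.ofReal_re]
    refine (Complex.re_le_norm _).trans_lt ?_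
    have h2 : ‖p - p'‖ < ‖q - p'‖ := by
      have h3 : ‖q - p‖ ≤ ‖q - p'‖ + ‖p - p'‖ := by
        have : q - p = (q - p') - (p - p') := by ring
        rw [this]
        exact norm_sub_le _ _
      linarith
    rw [norm_div, hen]
    exact div_lt_div_of_pos_left one_pos hppn h2
  · intro w' hw' hare d' hd' htan
    rw [himg] at hw' htan
    obtain ⟨w, hwΓ, rfl⟩ := hw'
    have hwp : w ≠ p' := fun h => hp'Γ (h ▸ hwΓ)
    have hwpn : 0 < ‖w - p'‖ := norm_pos_iff.2 (sub_ne_zero.2 hwp)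
    have hw0 : e / (w - p') ≠ 0 := div_ne_zero he0 (sub_ne_zero.2 hwp)
    have h2 := tangent_mob hen hd' hwp hp'Γ htan
    have h3 : ‖w - p'‖ < ρ / 2 := by
      have h4 : 2 / ρ < ‖e / (w - p')‖ := hare.trans_le (Complex.re_le_norm _)
      rw [norm_div, hen, div_lt_div_iff₀ hρ0 hwpn] at h4
      linarith
    have hwU : w ∈ U := by
      apply hballU
      have : w - p = (w - p') + (p' - p) := by ring
      rw [this]
      refine (norm_add_le _ _).trans_lt ?_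
      linarith
    have h4 := hgrA w hwΓ hwU _ (norm_d hen hw0 hd') h2
    exact growth_mob (N := fun z => ‖resolvent T z‖) hen hd' hwp
      (fun ζ hζ => growth_fun hen hp'r ζ hζ) h4

end Pool.Agent.W287.HI.H2
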